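import Pool.Agent.Q140.HYE.Iso
import Pool.Agent.Q140.HYE.TaskLocal
import Pool.Agent.Q140.HYE.TaskRc
import Pool.Agent.Q140.HYE.TaskIdent
import Pool.Agent.Q140.HYE.TaskComp
import Pool.Agent.Q140.HYE.TaskCont
import Pool.Agent.Q140.HYE.TaskRemov
import Pool.Agent.Q140.HYE.TaskPunct
import Pool.Agent.Q140.HYE.TaskPunctInf
import Pool.Agent.Q140.HYE.TaskBdd
import Pool.Agent.Q140.HYE.TaskNhd
import Pool.Agent.Q140.HYE.TaskDense
import Pool.Agent.Q140.HYE.TaskDisc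

namespace Pool.Agent.Results.MP_e6fbad_gt.UniqueInvolution

open Set Filter Topology Pool.Agent.Q140.HYE
open scoped Manifold ContDiff

/-- Uniqueness of the hyperelliptic involution of a Riemann surface of infinite type which has a hyperelliptic
involution with finite limit set (1), or whose limit set has an isolated point (2). -/
theorem result :
    (∀ (R : Type) [TopologicalSpace R] [T2Space R] [ConnectedSpace R] [ChartedSpace ℂ R] [IsManifold 𝓘(ℂ) ω R],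
      (∃ (B : Set (OnePoint ℂ)) (p : R → OnePoint ℂ) (τ : R → R), Cover B p τ ∧ (lim B).Finite) →
      ∀ τ₁ τ₂ : R → R, IsHyp τ₁ → IsHyp τ₂ → τ₁ = τ₂) ∧
    (∀ (R : Type) [TopologicalSpace R] [T2Space R] [ConnectedSpace R] [ChartedSpace ℂ R] [IsManifold 𝓘(ℂ) ω R],
      (∃ (B : Set (OnePoint ℂ)) (p : R → OnePoint ℂ) (τ : R → R), Cover B p τ ∧ ∃ q, Isolated (lim B) q) →
      ∀ τ₁ τ₂ : R → R, IsHyp τ₁ → IsHyp τ₂ → τ₁ = τ₂) := by
  have key : ∀ (R : Type) [TopologicalSpace R] [T2Space R] [ConnectedSpace R] [ChartedSpace ℂ R]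
      [IsManifold 𝓘(ℂ) ω R],
      (∃ (B : Set (OnePoint ℂ)) (p : R → OnePoint ℂ) (τ : R → R), Cover B p τ ∧ ∃ q, Isolated (lim B) q) →
      ∀ τ₁ τ₂ : R → R, IsHyp τ₁ → IsHyp τ₂ → τ₁ = τ₂ := by
    rintro R _ _ _ _ _ ⟨B, p, τ, hc, q, hq, hiso⟩ τ₁ τ₂ ⟨B₁, p₁, h1⟩ ⟨B₂, p₂, h2⟩
    have m := fun (B' : Set (OnePoint ℂ)) (p' : R → OnePoint ℂ) (τ' : R → R) (h' : Cover B' p' τ') =>
      Pool.Agent.Q140.HYE.main TaskLocal.main TaskRc.main TaskIdent_proof TaskComp.main TaskCont_proof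
        TaskRemov.main TaskPunct.main TaskPunctInf.main TaskBdd_proof TaskNhd.main TaskDense.main TaskDisc_proof
        hc h' hq hiso
    exact (m B₁ p₁ τ₁ h1).symm.trans (m B₂ p₂ τ₂ h2)
  refine ⟨?_, key⟩
  rintro R _ _ _ _ _ ⟨B, p, τ, hc, hfin⟩
  exact key R ⟨B, p, τ, hc, exists_isolated hc.infinite hfin⟩

end Pool.Agent.Results.MP_e6fbad_gt.UniqueInvolution
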